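import Pool.Agent.H7.LP.Targets

/-!
# Groups with locally compact pieces: the canonical code
-/

set_option autoImplicit false

open Set Filter Topology

namespace Pool.Agent.H83.LP

open Pool.Agent.H7.LP

theorem pf_SXB (h1 : T_LAB) (h2 : T_PRS) (h3 : T_STR) (_h4 : T_ADM) (h5 : T_INV) : T_SXB := by
  intro G X _ _ _ _ L M _ Y S F hF E hE x e w a hc hs ha
  obtain ⟨-, hp, hst⟩ := h3 G X L M Y S F hF x e w hc hs
  have hprs := h2 G X L M Y S x e w hc hs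
  have hinv : ∀ i g, S.Node x i.1 g → E w i * a * (e i)⁻¹ ∈ S.K i.1 := by
    intro i g hg
    have hpi : pres w i.1 := (hprs i.1).2 ⟨g, hg⟩
    have hcof := (hst (Nat.pair i.1 i.2)).cof
    rw [Nat.unpair_pair] at hcof
    obtain ⟨n, hn⟩ := hcof hpi
    obtain ⟨s, n', hw, hEi⟩ := hE w i ⟨_, n, hn⟩
    obtain ⟨-, -, hA, hK⟩ := (hs _ _ _).1 hw
    have h6 := (S.K i.1).mul_mem hK (hA.mK _ (ha s))
    have h7 : E w i * a * (e i)⁻¹ = (S.gm n')⁻¹ * (e (F w s).1 * (e i)⁻¹) *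
        ((e (F w s).1 * (e i)⁻¹)⁻¹ * ((F w s).2 * a * (e (F w s).1)⁻¹) *
          (e (F w s).1 * (e i)⁻¹)) := by
      rw [hEi]
      group
    rw [h7]
    exact h6
  obtain ⟨h6, h7⟩ := h5 G X L M Y S x e (fun i => E w i * a) hinv
  refine ⟨fun s => ?_, h6 hc, h7 w hs⟩
  obtain ⟨g, hg⟩ := (hprs (F w s).1.1).1 (hp s)
  have hn : S.Node x (F w s).1.1 (e (F w s).1) := hc.node _ g hg (F w s).1.2
  have hu := S.le _ (ha s)
  unfold Sys.Node at hn ⊢
  have h8 : (F w s).2 * a = ((F w s).2 * a * (e (F w s).1)⁻¹) * e (F w s).1 := by group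
  rw [h8, tr_mul, (h1 G).2.1 _ _ _ (L.piece _) _ hu.1, hn]
  exact hu.2

end Pool.Agent.H83.LP
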