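import Pool.Agent.H7.LP.Targets

/-!
# Groups with locally compact pieces: the element `a`
-/

set_option autoImplicit false

open Set Filter Topology

namespace Pool.Agent.H83.LP

open Pool.Agent.H7.LP

theorem pf_SXA (_h1 : T_PRS) (h2 : T_DIC) (h3 : T_CVN) (h4 : T_STR) : T_SXA := by
  intro G X _ _ _ _ _ L M _ Y S F hF x e w hc hs
  obtain ⟨-, hp, hst⟩ := h4 G X L M Y S F hF x e w hc hs
  refine h3 G X L M Y S (fun s => (F w s).1.1) (fun s => e (F w s).1) (fun s => (F w s).2)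
    ?_ ?_ ?_ ?_
  · intro s
    obtain ⟨n, m, hw, -⟩ := (hst s).quo
    exact ((hs _ _ _).1 hw).2.2.1
  · intro s
    obtain ⟨n, m, hw, hb⟩ := (hst s).quo
    have h5 := ((hs _ _ _).1 hw).2.2.2
    have h6 := (S.K (F w s).1.1).mul_mem ((S.K (F w s).1.1).inv_mem h5) (S.kapK (F w s).1.1 m)
    have h7 : (e (F w (s + 1)).1 * (e (F w s).1)⁻¹)⁻¹ * ((F w (s + 1)).2 * ((F w s).2)⁻¹) =
        ((S.gm n)⁻¹ * (e (F w (s + 1)).1 * (e (F w s).1)⁻¹))⁻¹ * S.kap (F w s).1.1 m := by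
      rw [hb]
      group
    rw [h7]
    exact h6
  · intro U hU
    obtain ⟨m, hm⟩ := L.small U hU
    obtain ⟨l, hl1, hl2, hl3, -, -⟩ := h2 G X L M Y S x e w hc hs (F w 0).1 (F w 0).1 m (hp 0) (hp 0)
    have hst' := (hst (Nat.pair l.1 l.2)).cof
    rw [Nat.unpair_pair] at hst'
    obtain ⟨n, hn⟩ := hst' hl1
    have hA := ((hs _ _ _).1 hn).2.2.1
    refine ⟨Nat.pair l.1 l.2 + 1, fun r hr => hm _ ?_⟩
    have h5 := hA.mR r hr
    have h6 := (L.piece (S.k l.1)).nor (e l)⁻¹ ((L.H (S.k l.1)).inv_mem hl3) _ h5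
    have h7 : (e l)⁻¹ * ((e (F w (Nat.pair l.1 l.2 + 1)).1 * (e (l.1, l.2))⁻¹)⁻¹ * r *
        (e (F w (Nat.pair l.1 l.2 + 1)).1 * (e (l.1, l.2))⁻¹)) * (e l)⁻¹⁻¹ =
        (e (F w (Nat.pair l.1 l.2 + 1)).1)⁻¹ * r * e (F w (Nat.pair l.1 l.2 + 1)).1 := by
      have h8 : (l.1, l.2) = l := rfl
      rw [h8]
      group
    rw [h7] at h6
    exact antitone_nat_of_succ_le L.antR hl2 h6
  · intro U hU
    obtain ⟨m, hm⟩ := L.small U hU
    exact ⟨m + 1, fun r hr => hm _ ((hst m).sml r hr)⟩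

end Pool.Agent.H83.LP
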